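import Pool.Agent.TH894.NE5

/-!
# Families of curves (or of arbitrary affine varieties) over `ℤ` with `d` parameters: for almost all members whose
parameters arise from arbitrary integers by changing a few digits, the distribution of the numbers of points over
`F_p, F_(p^2), ..., F_(p^g)` for `p ≤ x` agrees with the average over all members over `F_p`, with square-root error

Nothing is used besides Mathlib in the statement.
-/

set_option autoImplicit false

namespace Pool.Agent.Results.MP_3da4c4_nt.FewDigitCoefficients

open Finset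

/-- The number of the solutions over the field with `p ^ k` elements of the system of the equations `P j (m, X) = 0`, where
`m` are the parameters and `X` are the unknowns (`0` if `p` is not a prime). -/
noncomputable def points {d n e : ℕ} (P : Fin e → MvPolynomial (Fin d ⊕ Fin n) ℤ) (p k : ℕ) (m : Fin d → ℕ) : ℕ :=
  if h : p.Prime then
    haveI : Fact p.Prime := ⟨h⟩
    Nat.card {X : Fin n → GaloisField p k // ∀ j, MvPolynomial.eval₂ (Int.castRingHom (GaloisField p k))
      (Sum.elim (fun i => ((m i : ℕ) : GaloisField p k)) X) (P j) = 0}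
  else 0

/-- The numbers of the solutions over the fields with `p`, `p ^ 2`, ..., `p ^ g` elements. -/
noncomputable def zetaData {d n e : ℕ} (P : Fin e → MvPolynomial (Fin d ⊕ Fin n) ℤ) (g p : ℕ) (m : Fin d → ℕ) : Fin g → ℕ :=
  fun k => points P p (k + 1) m

/-- The primes up to `x`. -/
def primes (x : ℕ) : Finset ℕ := (range (x + 1)).filter Nat.Prime

/-- The average over all the parameters modulo `p` of the function `F`. -/
noncomputable def average {d : ℕ} (p : ℕ) (F : (Fin d → ℕ) → ℝ) : ℝ :=
  (∑ m ∈ Fintype.piFinset (fun _ : Fin d => range p), F m) / (p : ℝ) ^ d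

/-- For all the functions `φ` in the set the sum over the primes `p ≤ x` of `φ p` at the numbers of points of the member with the
parameters `m` differs from the sum of the averages over all members modulo `p` by at most
`(max 1 V) ^ (1 / 2) x ^ δ`, where `V` is the sum of the averages of the squares. -/
def Good {d n e : ℕ} (P : Fin e → MvPolynomial (Fin d ⊕ Fin n) ℤ) (g : ℕ) (Φ : Finset (ℕ → (Fin g → ℕ) → ℝ)) (δ : ℝ) (x : ℕ)
    (m : Fin d → ℕ) : Prop :=
  ∀ φ ∈ Φ, |∑ p ∈ primes x, φ p (zetaData P g p m) - ∑ p ∈ primes x, average p (fun m' => φ p (zetaData P g p m'))| ≤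
    Real.sqrt (max 1 (∑ p ∈ primes x, average p (fun m' => φ p (zetaData P g p m') ^ 2))) * (x : ℝ) ^ δ

/-- The digit number `i` (counted from the right, beginning with `0`) of `n` in base `b`. -/
def digit (b i n : ℕ) : ℕ := n / b ^ i % b

/-- The number which arises from the number `N` with at most `K` digits in base `b`, if for every `i ∈ S`
the digit number `i` is replaced by `f i`. -/
def change (b K N : ℕ) (f : ℕ → ℕ) (S : Finset ℕ) : ℕ :=
  ∑ i ∈ range K, (if i ∈ S then f i else digit b i N) * b ^ i

open Classical in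
/-- The number of the choices of `r l` of `K l` positions for all `l < d` for which the vector of the numbers obtained by
changing the digits of the `N l` at the chosen positions (according to `f l`) does not have the property `E`. -/
noncomputable def exceptions {d : ℕ} (b : ℕ) (K r N : Fin d → ℕ) (f : Fin d → ℕ → ℕ) (E : (Fin d → ℕ) → Prop) : ℕ :=
  ((Fintype.piFinset (fun l => powersetCard (r l) (range (K l)))).filter
    (fun S => ¬ E (fun l => change b (K l) (N l) (f l) (S l)))).card

lemma points_mod {d n e : ℕ} (P : Fin e → MvPolynomial (Fin d ⊕ Fin n) ℤ) (p k : ℕ) (m : Fin d → ℕ) :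
    points P p k m = points P p k (fun i => m i % p) := by
  unfold points
  split_ifs with h
  · haveI : Fact p.Prime := ⟨h⟩
    have h1 : (fun i => ((m i : ℕ) : GaloisField p k)) = fun i => ((m i % p : ℕ) : GaloisField p k) := by
      funext i
      exact (CharP.natCast_eq_natCast (GaloisField p k) p).2 (Nat.mod_modEq (m i) p).symm
    rw [h1]
  · rfl

/-- Let a base `b ≥ 2`, the number `d ≥ 1` of the parameters, `δ > 0` and an integer `A ≥ 0` be given. There are `c > 0` and `y₀` such
that for all families, given by integer polynomials `P j` in `d` parameters and `n` unknowns, and all integers `g`, `r l`, `K l`, `y` with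
`2 r l ≤ K l` and `y ≥ y₀` the following holds (for instance for the family `Y ^ 2 = X ^ (2 g + 1) + m_(2 g) X ^ (2 g) + ... + m_0` of
curves of genus `g`, where the numbers of points over `F_p, ..., F_(p^g)` determine the zeta function).

Let `0 ≤ N l < b ^ K l` be arbitrary integers, prescribe for every position `j` a digit `f l j` different from the digit of
`N l` in base `b`, and let `Φ x` be for every `x` a set of at most `x ^ A` real functions, of absolute value at most `1`, of a prime and of
`g` numbers. If one chooses `r l` of the `K l` positions and replaces the digits of `N l` at these positions, then for all but at most a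
proportion `1 / y ^ A` of the choices the member of the family with the parameters obtained has the following property: for all
integers `x` with `y ≤ x ≤ exp (c r l)` for all `l` and all `φ ∈ Φ x` the sum over `p ≤ x` of the values of `φ` at the numbers of points
over `F_p, ..., F_(p^g)` differs from the sum of the averages over all members modulo `p` by at most `(max 1 V) ^ (1 / 2) x ^ δ`
(hence by at most `x ^ (1 / 2 + δ)`), where `V` is the sum of the averages of `φ ^ 2`. -/
theorem result (b d : ℕ) (hb : 2 ≤ b) (hd : 1 ≤ d) (δ : ℝ) (hδ : 0 < δ) (A : ℕ) : ∃ c : ℝ, 0 < c ∧ ∃ y₀ : ℕ,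
    ∀ {n e : ℕ} (P : Fin e → MvPolynomial (Fin d ⊕ Fin n) ℤ) (g : ℕ) (K r : Fin d → ℕ) (y : ℕ), (∀ l, 2 * r l ≤ K l) → y₀ ≤ y →
    ∀ N : Fin d → ℕ, (∀ l, N l < b ^ K l) → ∀ f : Fin d → ℕ → ℕ, (∀ l j, f l j < b ∧ f l j ≠ digit b j (N l)) →
    ∀ Φ : ℕ → Finset (ℕ → (Fin g → ℕ) → ℝ), (∀ x, (Φ x).card ≤ x ^ A) → (∀ x, ∀ φ ∈ Φ x, ∀ p v, |φ p v| ≤ 1) →
      (exceptions b K r N f (fun m => ∀ x : ℕ, y ≤ x → (∀ l, (x : ℝ) ≤ Real.exp (c * r l)) → Good P g (Φ x) δ x m) : ℝ) ≤
        1 / (y : ℝ) ^ A * ∏ l, ((K l).choose (r l) : ℝ) := by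
  classical
  obtain ⟨c, hc, x₀, h⟩ := Pool.Agent.TH894.NE.law3 b d hb hd δ A A hδ
  refine ⟨c, hc, x₀ + 3, fun {n e} P g K r y hrK hy N hN f hf Φ hΦ hΦ1 => ?_⟩
  have hy0 : (0 : ℝ) < y := by exact_mod_cast (by omega : 0 < y)
  have h1 : 1 / (y : ℝ) ^ A = (y : ℝ) ^ (-(A : ℝ)) := by
    rw [Real.rpow_neg hy0.le, Real.rpow_natCast, one_div]
  rw [h1]
  unfold exceptions
  have hav : ∀ (p : ℕ) (F : (Fin d → ℕ) → ℝ), average p F = Pool.Agent.TH894.NE.mean d p F := by
    intro p F
    unfold average Pool.Agent.TH894.NE.mean Pool.Agent.TH894.NE.box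
    ring
  refine h r K y hrK (by omega) N hN f hf (ℕ → (Fin g → ℕ) → ℝ) Φ ?_ ℕ
    (fun x _ => primes x) (fun _ p => p) ?_ ?_ (fun φ p m => φ p (zetaData P g p m)) ?_ ?_ _ (filter_subset _ _) ?_
  · intro x _
    rw [Real.rpow_natCast]
    exact_mod_cast hΦ x
  · intro x l _ p hp
    unfold primes at hp
    rw [mem_filter, mem_range] at hp
    exact ⟨hp.2.one_lt.le, by omega⟩
  · intro x l _ p hp p' hp' hne
    unfold primes at hp hp'
    rw [mem_filter] at hp hp'
    exact (Nat.coprime_primes hp.2 hp'.2).2 hne
  · intro x φ _ p _ m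
    show φ p (zetaData P g p m) = φ p (zetaData P g p (fun i => m i % p))
    congr 1
    funext k
    exact points_mod P p (k + 1) m
  · intro x φ hφ p _ m
    exact hΦ1 x φ hφ p _
  · intro S hS
    rw [mem_filter] at hS
    obtain ⟨_, hS2⟩ := hS
    unfold Good at hS2
    push Not at hS2
    obtain ⟨x, hyx, hxr, φ, hφ, hlt⟩ := hS2
    have hx0 : (0 : ℝ) < x := by exact_mod_cast (by omega : 0 < x)
    refine ⟨x, hyx, fun l => (Real.log_le_iff_le_exp hx0).2 (hxr l), φ, hφ, ?_⟩
    simp only [hav] at hlt
    exact hlt

end Pool.Agent.Results.MP_3da4c4_nt.FewDigitCoefficients
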