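import Pool.Agent.TH129.ST.Inst

/-!
# The moments of the coefficients of `L_p` and the orders of `L`-functions at the point `1`

Let `C` be a curve of genus `g` over a number field `K`, for example over `ℚ`, and
`L̄_v(T) = T^{2g} + a_{1,v} T^{2g-1} + ... + a_{1,v} T + 1` the normalised numerator of the zeta function
of its reduction at the prime `v`.  The question asks for the mean values of the powers `a_{k,v}^m`.
Let `V = H^1(C)(1/2)`, with the inverse roots of `L̄_v` as eigenvalues of Frobenius; up to the sign
`(-1)^{km}`, `a_{k,v}^m` is the trace of Frobenius on `(Λ^k V)^{⊗ m}`.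

* If the `L`-function of `(Λ^k V)^{⊗ m}` has a meromorphic continuation to a neighbourhood of the single
  point `1`, then the mean value of `a_k^m` exists in the sense of the logarithmic density, that is,
  `(1/log x) ∑_{q_v ≤ x} a_{k,v}^m log q_v / q_v` has a limit, and it is `(-1)^{km}` times the order of the
  pole at `1`, an integer.
* If moreover the limit `a_k(m; g)` of the question exists, then it is this integer.  So the equality
  `a_k(m; g) = c_k(m; g)` of the question implies that the pole has the order `(-1)^{km} c_k(m; g)`.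

The same holds for the mixed moments, the mean values of `a_{k_1}^{m_1} ⋯ a_{k_r}^{m_r}`.  Nothing is
assumed about the other points of the line `Re s = 1`.
-/

set_option autoImplicit false

open Filter Topology NumberField IsDedekindDomain Polynomial

namespace Pool.Agent.Results.MP_3da4c4_nt.MomentsAndPoles

open Pool.Agent.TH129.ST (IsCurveFrobenius IsTensorSystem HasPoleOrder logMean mean coeff)

theorem result {K : Type} [Field K] [NumberField K] {l : ℕ}
    (C : Set (MvPolynomial (Fin l) (𝓞 K))) (g : ℕ)
    (α : HeightOneSpectrum (𝓞 K) → Fin (2 * g) → ℂ)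
    (hα : ∀ᶠ v in cofinite, IsCurveFrobenius C v (α v)) (r : ℕ) (k m : Fin r → ℕ)
    (B : HeightOneSpectrum (𝓞 K) → ℂ[X]) (hB : IsTensorSystem 1 α k m B) (n : ℤ)
    (hn : HasPoleOrder B n) :
    Tendsto (logMean fun v => ∏ a, coeff 1 α (k a) v ^ m a) atTop
      (𝓝 ((-1) ^ (∑ a, k a * m a) * n)) ∧
    ∀ c : ℝ, Tendsto (mean fun v => ∏ a, coeff 1 α (k a) v ^ m a) atTop (𝓝 c) →
      c = (-1) ^ (∑ a, k a * m a) * n :=
  Pool.Agent.TH129.ST.momentLaw (by norm_num) (hα.mono fun _ h => h.isFrobenius) r k m B n hB hn

end Pool.Agent.Results.MP_3da4c4_nt.MomentsAndPoles
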