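import Pool.Agent.TH869.SQ.Pm

/-!
# The `L`-polynomials of almost all members of a one-parameter family of hyperelliptic curves

The family is `C_n : y² = F(x, n)`, `F ∈ ℤ[n][x]` arbitrary. The joint distribution of the coefficients `a_1, ..., a_m` of the
normalised `L`-polynomials of `C_n` at the primes `p ≤ y` is compared with the mean over `p ≤ y` of the joint distributions for
the members of the family modulo `p`. Outside an exceptional set of at most `C N ^ (1 - κ)` values `n ≤ N`, for all boxes and all
`y ≤ N ^ κ`, the error is `C y ^ (1/2 + δ) (1 + log N) ^ (1/2)`, smaller than the main term as soon as `y` exceeds a power of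
`log N` with exponent larger than `1`. The constants depend on `m` and `δ` only.
-/

set_option autoImplicit false

namespace Pool.Agent.Results.MP_3da4c4_nt.OneParameterFamilies

open Finset Polynomial

/-- Number of points over the field with `p ^ j` elements of the smooth projective curve `y² = f(x)` (`f` separable): the
affine points, and the points at infinity; there is one if `deg f` is odd, and if `deg f` is even with leading coefficient
`c` they are the solutions `z` of `z² = c`. -/
noncomputable def pointCount (p : ℕ) [Fact p.Prime] (f : (ZMod p)[X]) (j : ℕ) : ℕ :=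
  Nat.card {P : GaloisField p j × GaloisField p j // P.2 ^ 2 = aeval P.1 f} +
  if Odd f.natDegree then 1 else
    Nat.card {z : GaloisField p j // z ^ 2 = algebraMap (ZMod p) (GaloisField p j) f.leadingCoeff}

/-- The coefficients `c_i` of `L(T) = (1 - T)(1 - q T) exp(∑ N_j T^j / j) = exp(∑ t_j T^j / j)`, where
`t_j = N_j - 1 - q^j`: `c_0 = 1` and `(i + 1) c_{i+1} = ∑_{j ≤ i} t_{j+1} c_{i-j}`. -/
noncomputable def coeffL (t : ℕ → ℝ) : ℕ → ℝ
  | 0 => 1
  | i + 1 => (∑ j : Fin (i + 1), t (j + 1) * coeffL t (i - j)) / (i + 1)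

/-- The `k`-th coefficient `a_k` of the normalised `L`-polynomial of `y² = f(x)` over the field with `p` elements. -/
noncomputable def a (p : ℕ) [Fact p.Prime] (f : (ZMod p)[X]) (k : ℕ) : ℝ :=
  coeffL (fun j => (pointCount p f j : ℝ) - 1 - (p : ℝ) ^ j) k / (p : ℝ) ^ ((k : ℝ) / 2)

/-- The reduction modulo `p` of the member `F(x, n)` of the family. -/
noncomputable def red (F : ℤ[X][X]) (p n : ℕ) : (ZMod p)[X] :=
  (F.map (evalRingHom (n : ℤ))).map (Int.castRingHom (ZMod p))

/-- `p` is an odd prime, and `F(x, n)` is separable modulo `p` and has there the degree of `F` in `x` (so that `C_n` has good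
reduction at `p`), and the coefficients `a_1, ..., a_m` at `p` are in the intervals `I 0, ..., I (m - 1)`. -/
def InBox {m : ℕ} (F : ℤ[X][X]) (I : Fin m → Set ℝ) (p n : ℕ) : Prop :=
  ∃ hp : p.Prime, haveI : Fact p.Prime := ⟨hp⟩
    p ≠ 2 ∧ (red F p n).natDegree = F.natDegree ∧ (red F p n).Separable ∧
      ∀ i : Fin m, a p (red F p n) (i + 1) ∈ I i

open Classical in
/-- The number of the primes `p ≤ y` of good reduction of `C_n` for which the coefficients are in the box. -/
noncomputable def count {m : ℕ} (F : ℤ[X][X]) (I : Fin m → Set ℝ) (y n : ℕ) : ℕ :=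
  ((range (y + 1)).filter (fun p => InBox F I p n)).card

open Classical in
/-- The mean over the family: the sum over the primes `p ≤ y` of the proportion of the residues `t` modulo `p` for which
`C_t` has good reduction at `p` and the coefficients are in the box. -/
noncomputable def model {m : ℕ} (F : ℤ[X][X]) (I : Fin m → Set ℝ) (y : ℕ) : ℝ :=
  ∑ p ∈ (range (y + 1)).filter Nat.Prime,
    (((range p).filter (fun t => InBox F I p t)).card : ℝ) / p

theorem red_add (F : ℤ[X][X]) (p n : ℕ) : red F p (n + p) = red F p n := by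
  unfold red
  rw [Polynomial.map_map, Polynomial.map_map]
  congr 1
  ext g
  · simp
  · simp

open Classical in
/-- The coefficients, preceded by `1` if the reduction is good and by `0` otherwise. -/
noncomputable def data (m : ℕ) (F : ℤ[X][X]) (p n : ℕ) : Fin (m + 1) → ℝ :=
  if hp : p.Prime then
    haveI : Fact p.Prime := ⟨hp⟩
    Fin.cons (if p ≠ 2 ∧ (red F p n).natDegree = F.natDegree ∧ (red F p n).Separable then 1 else 0)
      (fun i : Fin m => a p (red F p n) (i + 1))
  else 0

theorem data_add (m : ℕ) (F : ℤ[X][X]) (p n : ℕ) : data m F p (n + p) = data m F p n := by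
  unfold data
  rw [red_add]

theorem data_mem {m : ℕ} (F : ℤ[X][X]) (I : Fin m → Set ℝ) (p n : ℕ) (hp : p.Prime) :
    (∀ i, data m F p n i ∈ (Fin.cons {1} I : Fin (m + 1) → Set ℝ) i) ↔ InBox F I p n := by
  unfold data InBox
  rw [dif_pos hp, Fin.forall_fin_succ]
  simp only [Fin.cons_zero, Fin.cons_succ, Set.mem_singleton_iff]
  constructor
  · rintro ⟨h1, h2⟩
    refine ⟨hp, ?_⟩
    split_ifs at h1 with h
    · exact ⟨h.1, h.2.1, h.2.2, h2⟩
    · norm_num at h1
  · rintro ⟨_, h1, h2, h3, h4⟩
    exact ⟨if_pos ⟨h1, h2, h3⟩, h4⟩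

/-- Let `m ≥ 0` and `0 < δ ≤ 1`. There are `κ > 0` and `C` such that for all `F ∈ ℤ[T][X]` and all `N ≥ 1`, all but at most
`C N ^ (1 - κ)` of the integers `0 ≤ n ≤ N` have the following property: for every `y ≤ N ^ κ` and every product `I` of `m`
intervals, the number of the primes `p ≤ y` at which the curve `y² = F(x, n)` has good reduction with `(a_1, ..., a_m) ∈ I`
differs from the mean over the family by at most `C y ^ (1 / 2 + δ) (1 + log N) ^ (1 / 2)`. -/
theorem result (m : ℕ) (δ : ℝ) (hδ : 0 < δ) (hδ1 : δ ≤ 1) :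
    ∃ κ C : ℝ, 0 < κ ∧ 0 < C ∧ ∀ (F : ℤ[X][X]) (N : ℕ), 1 ≤ N →
      ∃ E : Finset ℕ, (E.card : ℝ) ≤ C * (N : ℝ) ^ (1 - κ) ∧
        ∀ n : ℕ, n ≤ N → n ∉ E → ∀ y : ℕ, (y : ℝ) ≤ (N : ℝ) ^ κ →
          ∀ I : Fin m → Set ℝ, (∀ i, (I i).OrdConnected) →
            |(count F I y n : ℝ) - model F I y| ≤
              C * ((y : ℝ) ^ (1 / 2 + δ) * √(1 + Real.log N)) := by
  classical
  obtain ⟨κ, C, h1, _, h3, H⟩ := Pool.Agent.TH869.SQ.primes_boxes (m + 1) δ hδ hδ1
  refine ⟨κ, C, h1, by linarith, ?_⟩
  intro F N hN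
  obtain ⟨E, hE1, hE2⟩ := H (data m F) (data_add m F) N hN
  refine ⟨E, hE1, ?_⟩
  intro n hn hnE y hy I hI
  have h := hE2 n hn hnE y hy (Fin.cons {1} I) (by
    intro i
    refine Fin.cases ?_ ?_ i
    · rw [Fin.cons_zero]
      exact Set.ordConnected_singleton
    · intro i
      rw [Fin.cons_succ]
      exact hI i)
  rw [sum_sub_distrib] at h
  have hind : ∀ p t : ℕ, p.Prime → Pool.Agent.TH869.SQ.ind (Fin.cons {1} I) (data m F p t) =
      if InBox F I p t then 1 else 0 := by
    intro p t hp
    have h4 := data_mem F I p t hp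
    unfold Pool.Agent.TH869.SQ.ind
    by_cases h5 : InBox F I p t
    · rw [if_pos h5, if_pos (h4.mpr h5)]
    · rw [if_neg h5, if_neg (fun h6 => h5 (h4.mp h6))]
  have e1 : (count F I y n : ℝ) = ∑ p ∈ Pool.Agent.TH869.EVF.PR y,
      Pool.Agent.TH869.SQ.ind (Fin.cons {1} I) (data m F p n) := by
    have e3 : (range (y + 1)).filter (fun p => InBox F I p n) =
        ((range (y + 1)).filter Nat.Prime).filter (fun p => InBox F I p n) := by
      rw [filter_filter]
      apply filter_congr
      intro p _
      constructor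
      · intro h
        exact ⟨h.1, h⟩
      · exact fun h => h.2
    unfold count
    rw [e3, ← sum_boole]
    refine sum_congr rfl fun p hp => ?_
    rw [Pool.Agent.TH869.EVF.PR, mem_filter] at hp
    exact (hind p n hp.2).symm
  have e2 : model F I y = ∑ p ∈ Pool.Agent.TH869.EVF.PR y, Pool.Agent.TH869.SQ.mean p (fun t =>
      Pool.Agent.TH869.SQ.ind (Fin.cons {1} I) (data m F p t)) := by
    unfold model Pool.Agent.TH869.SQ.mean
    refine sum_congr rfl fun p hp => ?_
    rw [Pool.Agent.TH869.EVF.PR, mem_filter] at hp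
    rw [← sum_boole]
    congr 1
    exact sum_congr rfl fun t _ => (hind p t hp.2).symm
  rw [e1, e2]
  exact h

end Pool.Agent.Results.MP_3da4c4_nt.OneParameterFamilies
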