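import Pool.Agent.W529.ST.Hyp
import Pool.Agent.W529.ST.Wrap

/-!
# The distribution of the coefficients for the quadratic twists of a hyperelliptic curve

`F` is a number field (`ℚ` in the problem) and `f ∈ 𝓞_F[x]` separable; `C_d`, `d ∈ 𝓞_F` nonzero, is the
smooth projective curve `d y² = f(x)`.  If `C = C_1` is generic, so are all its twists `C_d`.  For odd
`j` the Sato-Tate conjecture says that the coefficient `a_j` of the normalised `L`-polynomials has the
same symmetric law for all the `C_d`.  We show that at every large scale, and for every `n`, all but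
`32 (n + 1)³` of the twists, however many they are, have an empirical distribution function of `a_j`
which differs by less than `1 / n` everywhere from the one of `± a_j` for `C`, with a random sign.
-/

set_option autoImplicit false

namespace Pool.Agent.Results.MP_3da4c4_nt.TwistDistributions

open NumberField IsDedekindDomain Filter Topology Polynomial

/-- Number of points of the smooth projective curve `d y² = f(x)` over the extension of degree `j` of
the finite field `k`, that is, the field of the elements of the algebraic closure of `k` that are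
fixed by the `j`-th power of the Frobenius of `k`: the affine points, and the points at infinity; there
is one if `deg f` is odd, and if `deg f = 2g + 2` with leading coefficient `c` they are the solutions
`z` of `d z² = c` (`z = y / x^{g+1}`). -/
noncomputable def pointCount (k : Type) [Field k] (f : k[X]) (d : k) (j : ℕ) : ℕ :=
  Nat.card {P : AlgebraicClosure k × AlgebraicClosure k //
    P.1 ^ (Nat.card k ^ j) = P.1 ∧ P.2 ^ (Nat.card k ^ j) = P.2 ∧
    algebraMap k (AlgebraicClosure k) d * P.2 ^ 2 = aeval P.1 f} +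
  if Odd f.natDegree then 1 else
    Nat.card {z : AlgebraicClosure k // z ^ (Nat.card k ^ j) = z ∧
      algebraMap k (AlgebraicClosure k) d * z ^ 2 = algebraMap k (AlgebraicClosure k) f.leadingCoeff}

/-- The coefficients `c_i` of `L(T) = (1 - T)(1 - q T) exp(∑ N_j T^j / j) = exp(∑ t_j T^j / j)`, where
`t_j = N_j - 1 - q^j`: `c_0 = 1` and `(i + 1) c_{i+1} = ∑_{j ≤ i} t_{j+1} c_{i-j}`. -/
noncomputable def coeffL (t : ℕ → ℝ) : ℕ → ℝ
  | 0 => 1
  | i + 1 => (∑ j : Fin (i + 1), t (j + 1) * coeffL t (i - j)) / (i + 1)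

section
variable {F : Type} [Field F] [NumberField F]

/-- The coefficient `a_{k,v}` of the normalised `L`-polynomial of `C_d` at `v`: the coefficient of
`T^k` in `L_v(q^{-1/2} T)`, `q = N(v)`. -/
noncomputable def a (f : (𝓞 F)[X]) (d : 𝓞 F) (k : ℕ) (v : HeightOneSpectrum (𝓞 F)) : ℝ :=
  haveI : v.asIdeal.IsMaximal := v.isMaximal
  letI : Field (𝓞 F ⧸ v.asIdeal) := Ideal.Quotient.field v.asIdeal
  coeffL (fun j => (pointCount (𝓞 F ⧸ v.asIdeal) (f.map (Ideal.Quotient.mk v.asIdeal))
      (Ideal.Quotient.mk v.asIdeal d) j : ℝ) - 1 - (Nat.card (𝓞 F ⧸ v.asIdeal) : ℝ) ^ j) k /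
    (Nat.card (𝓞 F ⧸ v.asIdeal) : ℝ) ^ ((k : ℝ) / 2)

/-- `v ∤ 2d`, and the reduction of `f` modulo `v` is separable of the same degree; then `C_d` has good
reduction at `v`. -/
def Good (f : (𝓞 F)[X]) (d : 𝓞 F) (v : HeightOneSpectrum (𝓞 F)) : Prop :=
  2 * d ∉ v.asIdeal ∧ (f.map (Ideal.Quotient.mk v.asIdeal)).natDegree = f.natDegree ∧
    (f.map (Ideal.Quotient.mk v.asIdeal)).Separable

/-- The empirical distribution function at the scale `N` of a function `b` of the primes, for `C_d`:
the share of the primes with `b v ≤ x` among the good primes `v` for `C_d` of norm at most `N`. -/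
noncomputable def distr (f : (𝓞 F)[X]) (d : 𝓞 F) (b : HeightOneSpectrum (𝓞 F) → ℝ) (N : ℕ) (x : ℝ) : ℝ :=
  (Nat.card {v : HeightOneSpectrum (𝓞 F) //
    Ideal.absNorm v.asIdeal ≤ N ∧ Good f d v ∧ b v ≤ x} : ℝ) /
  (Nat.card {v : HeightOneSpectrum (𝓞 F) // Ideal.absNorm v.asIdeal ≤ N ∧ Good f d v} : ℝ)

theorem coeffL_twist (ε : ℝ) (t s : ℕ → ℝ) (h : ∀ j, j ≠ 0 → s j = ε ^ j * t j) (i : ℕ) :
    coeffL s i = ε ^ i * coeffL t i := by
  induction i using Nat.strong_induction_on with
  | _ i ih =>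
    cases i with
    | zero => rw [coeffL, coeffL, pow_zero, one_mul]
    | succ i =>
      rw [coeffL, coeffL, ← mul_div_assoc, Finset.mul_sum]
      congr 1
      refine Finset.sum_congr rfl fun j _ => ?_
      rw [h _ (Nat.succ_ne_zero _), ih (i - j) (by omega)]
      have h2 : ε ^ (i + 1) = ε ^ ((j : ℕ) + 1) * ε ^ (i - (j : ℕ)) := by
        rw [← pow_add]
        congr 1
        omega
      rw [h2, Nat.succ_eq_add_one]
      ring

theorem a_twist (f : (𝓞 F)[X]) {d : 𝓞 F} (k : ℕ) {v : HeightOneSpectrum (𝓞 F)}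
    (h2d : 2 * d ∉ v.asIdeal) : a f d k v = Pool.Agent.W529.ST.ch d v ^ k * a f 1 k v := by
  unfold a
  rw [← mul_div_assoc]
  congr 1
  refine coeffL_twist _ _ _ (fun j hj => ?_) k
  have h1 := Pool.Agent.W529.ST.trH_twist v f h2d hj
  have h2 : ∀ e : 𝓞 F, (Pool.Agent.W529.ST.trH v f e j : ℝ) =
      -(((haveI : v.asIdeal.IsMaximal := v.isMaximal
        letI : Field (𝓞 F ⧸ v.asIdeal) := Ideal.Quotient.field v.asIdeal
        pointCount (𝓞 F ⧸ v.asIdeal) (f.map (Ideal.Quotient.mk v.asIdeal))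
        (Ideal.Quotient.mk v.asIdeal e) j : ℕ) : ℝ) - 1 -
          (Nat.card (𝓞 F ⧸ v.asIdeal) : ℝ) ^ j) := by
    intro e
    unfold Pool.Agent.W529.ST.trH Pool.Agent.W529.ST.trG Pool.Agent.W529.ST.infPts
      Pool.Agent.H126T.affPts pointCount
    push_cast
    ring
  rw [h2, h2] at h1
  linear_combination -h1

theorem finite_bad (f : (𝓞 F)[X]) (hf : (f.map (algebraMap (𝓞 F) F)).Separable)
    (hn : 1 ≤ f.natDegree) {d : 𝓞 F} (hd : d ≠ 0) :
    {v : HeightOneSpectrum (𝓞 F) | ¬ Good f d v}.Finite := by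
  classical
  have hinj : Function.Injective (algebraMap (𝓞 F) F) := RingOfIntegers.coe_injective
  have hf0 : f ≠ 0 := by
    rintro rfl
    simp at hn
  set c : 𝓞 F := resultant f f.derivative f.natDegree f.derivative.natDegree with hc
  have hc0 : c ≠ 0 := by
    intro h0
    have h1 := resultant_ne_zero _ _ hf
    rw [derivative_map, natDegree_map_eq_of_injective hinj,
      natDegree_map_eq_of_injective hinj, resultant_map_map, ← hc, h0, map_zero] at h1
    exact h1 rfl
  obtain ⟨p, q, _, _, hpq⟩ := exists_mul_add_mul_eq_C_resultant f f.derivative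
    (m := f.natDegree) (n := f.derivative.natDegree) le_rfl le_rfl (Or.inl (by omega))
  rw [← hc] at hpq
  refine (Pool.Agent.W529.ST.finite_mem (mul_ne_zero (mul_ne_zero two_ne_zero hd)
    (mul_ne_zero (leadingCoeff_ne_zero.2 hf0) hc0))).subset fun v hv => ?_
  by_contra hv'
  have hv' : 2 * d * (f.leadingCoeff * c) ∉ v.asIdeal := hv'
  apply hv
  have : v.asIdeal.IsMaximal := v.isMaximal
  let _ : Field (𝓞 F ⧸ v.asIdeal) := Ideal.Quotient.field v.asIdeal
  set π := Ideal.Quotient.mk v.asIdeal with hπ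
  have hlc : π f.leadingCoeff ≠ 0 := by
    intro h0
    apply hv'
    exact Ideal.mul_mem_left _ _ (Ideal.mul_mem_right _ _ (Ideal.Quotient.eq_zero_iff_mem.1 h0))
  have hcc : π c ≠ 0 := by
    intro h0
    apply hv'
    exact Ideal.mul_mem_left _ _ (Ideal.mul_mem_left _ _ (Ideal.Quotient.eq_zero_iff_mem.1 h0))
  refine ⟨fun h => hv' (Ideal.mul_mem_right _ _ h),
    natDegree_map_of_leadingCoeff_ne_zero _ hlc, ?_⟩
  have h3 := congrArg (Polynomial.map π) hpq
  rw [Polynomial.map_add, Polynomial.map_mul, Polynomial.map_mul, map_C,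
    ← derivative_map] at h3
  refine ⟨C (π c)⁻¹ * p.map π, C (π c)⁻¹ * q.map π, ?_⟩
  have h4 : C (π c)⁻¹ * p.map π * f.map π + C (π c)⁻¹ * q.map π * derivative (f.map π) =
      C (π c)⁻¹ * (f.map π * p.map π + derivative (f.map π) * q.map π) := by ring
  rw [h4, h3, ← C_mul, inv_mul_cancel₀ hcc, C_1]


open Classical in
theorem exists_finset (f : (𝓞 F)[X]) (N : ℕ) :
    ∃ t : Finset (HeightOneSpectrum (𝓞 F)),
      Nat.card {v : HeightOneSpectrum (𝓞 F) // Ideal.absNorm v.asIdeal ≤ N} = t.card ∧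
      (∀ φ : HeightOneSpectrum (𝓞 F) → ℝ,
        Pool.Agent.W529.ST.mean F φ N = (∑ v ∈ t, φ v) / (t.card : ℝ)) ∧
      ∀ d b x, distr f d b N x =
        (∑ v ∈ t.filter (Good f d), if b v ≤ x then (1 : ℝ) else 0) /
          ((t.filter (Good f d)).card : ℝ) := by
  obtain ⟨t, ht, hcard, hmean⟩ := Pool.Agent.W529.ST.mean_def (F := F) (fun _ => 0) N
  refine ⟨t, hcard, hmean, fun d b x => ?_⟩
  let e : {v : HeightOneSpectrum (𝓞 F) // Ideal.absNorm v.asIdeal ≤ N ∧ Good f d v} ≃
      t.filter (Good f d) :=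
    Equiv.subtypeEquivRight fun v => by rw [Finset.mem_filter, ht]
  let e' : {v : HeightOneSpectrum (𝓞 F) // Ideal.absNorm v.asIdeal ≤ N ∧ Good f d v ∧ b v ≤ x} ≃
      (t.filter (Good f d)).filter (fun v => b v ≤ x) :=
    Equiv.subtypeEquivRight fun v => by rw [Finset.mem_filter, Finset.mem_filter, ht, and_assoc]
  unfold distr
  rw [Nat.card_congr e, Nat.card_congr e', Nat.card_eq_fintype_card, Nat.card_eq_fintype_card,
    Fintype.card_coe, Fintype.card_coe, Finset.card_filter]
  push_cast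
  rfl

/-- leaving out few terms changes a mean little -/
theorem mean_close {ι : Type} (t u : Finset ι) (hu : u ⊆ t) (φ : ι → ℝ) (h0 : ∀ v, 0 ≤ φ v)
    (h1 : ∀ v, φ v ≤ 1) (b : ℕ) (hb : t.card ≤ u.card + b) (ht : 0 < t.card) :
    |(∑ v ∈ u, φ v) / (u.card : ℝ) - (∑ v ∈ t, φ v) / (t.card : ℝ)| ≤ b / t.card := by
  have htR : (0 : ℝ) < t.card := by exact_mod_cast ht
  have hbR : (t.card : ℝ) ≤ u.card + b := by exact_mod_cast hb
  set S : ℝ := ∑ v ∈ t, φ v with hS
  set S' : ℝ := ∑ v ∈ u, φ v with hS'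
  have e1 : S' ≤ S := Finset.sum_le_sum_of_subset_of_nonneg hu fun v _ _ => h0 v
  have e2 : 0 ≤ S' := Finset.sum_nonneg fun v _ => h0 v
  have e3 : S' ≤ u.card := by
    calc S' ≤ ∑ v ∈ u, (1 : ℝ) := Finset.sum_le_sum fun v _ => h1 v
      _ = u.card := by simp
  have e4 : S ≤ S' + b := by
    classical
    have h2 : S = S' + ∑ v ∈ t \ u, φ v := by
      rw [hS, hS', add_comm, Finset.sum_sdiff hu]
    have h3 : ∑ v ∈ t \ u, φ v ≤ b := by
      calc ∑ v ∈ t \ u, φ v ≤ ∑ v ∈ t \ u, (1 : ℝ) := Finset.sum_le_sum fun v _ => h1 v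
        _ = (t \ u).card := by simp
        _ ≤ b := by
          rw [Finset.card_sdiff_of_subset hu]
          have : t.card - u.card ≤ b := by omega
          exact_mod_cast this
    linarith
  have e5 : (u.card : ℝ) ≤ t.card := by exact_mod_cast Finset.card_le_card hu
  rcases Nat.eq_zero_or_pos u.card with hu0 | hu0
  · have hS0 : S' = 0 := by
      rw [hS', Finset.card_eq_zero.1 hu0, Finset.sum_empty]
    rw [hu0, hS0, zero_div, zero_sub, abs_neg, abs_of_nonneg (div_nonneg (e2.trans e1) htR.le)]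
    refine div_le_div_of_nonneg_right ?_ htR.le
    linarith
  · have huR : (0 : ℝ) < u.card := by exact_mod_cast hu0
    rw [abs_le]
    constructor
    · have h8 : (S - b) / (t.card : ℝ) ≤ S' / (u.card : ℝ) :=
        le_trans (div_le_div_of_nonneg_right (by linarith : S - b ≤ S') htR.le)
          (div_le_div_of_nonneg_left e2 huR e5)
      rw [sub_div] at h8
      linarith
    · rw [sub_le_iff_le_add, ← add_div, div_le_div_iff₀ huR htR]
      have h5 : S' * (t.card : ℝ) ≤ S' * (u.card + b) := mul_le_mul_of_nonneg_left hbR e2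
      have h6 : S' * (b : ℝ) ≤ u.card * b := mul_le_mul_of_nonneg_right e3 (Nat.cast_nonneg b)
      have h7 : S' * (u.card : ℝ) ≤ S * u.card := mul_le_mul_of_nonneg_right e1 huR.le
      nlinarith

end

/-- **The distribution of `a_j`, `j` odd, for the quadratic twists of a hyperelliptic curve.**  Let `F`
be a number field, `f ∈ 𝓞_F[x]` separable of positive degree, `T` a finite set of nonzero elements of
`𝓞_F` in different classes modulo squares of `F`, and `n ≥ 1`.  For all large `N` and all odd `j`, all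
but at most `32 (n + 1)³` of the `d ∈ T` have the following property: for every real `x`, the empirical
distribution function at `x` of `a_j` for `C_d` at the scale `N` differs by less than `1 / n` from the
mean of the empirical distribution functions at `x` of `a_j` and of `- a_j` for `C`. -/
theorem result (F : Type) [Field F] [NumberField F] (f : (𝓞 F)[X])
    (hf : (f.map (algebraMap (𝓞 F) F)).Separable) (hn : 1 ≤ f.natDegree)
    (T : Finset (𝓞 F)) (hT : ∀ d ∈ T, d ≠ 0)
    (hT' : ∀ d ∈ T, ∀ e ∈ T, d ≠ e → ¬ IsSquare ((d * e : 𝓞 F) : F)) (n : ℕ) (hn1 : 1 ≤ n) :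
    ∀ᶠ N : ℕ in atTop, ∀ j : ℕ, Odd j →
      {d : 𝓞 F | d ∈ T ∧ ∃ x : ℝ, 1 / (n : ℝ) ≤ |distr f d (a f d j) N x -
        (distr f 1 (a f 1 j) N x + distr f 1 (fun v => - a f 1 j v) N x) / 2|}.ncard ≤
      32 * (n + 1) ^ 3 := by
  classical
  have hnR : (1 : ℝ) ≤ n := by exact_mod_cast hn1
  set δ : ℝ := 1 / (2 * ((n : ℝ) + 1) ^ 2) with hδ
  have hδ0 : 0 < δ := by positivity
  let b : 𝓞 F → ℕ := fun d => {v : HeightOneSpectrum (𝓞 F) | ¬ Good f d v}.ncard
  have hev : ∀ᶠ N : ℕ in atTop, ∀ d ∈ insert 1 T, (b d : ℝ) / δ ≤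
      (Nat.card {v : HeightOneSpectrum (𝓞 F) // Ideal.absNorm v.asIdeal ≤ N} : ℝ) := by
    rw [Filter.eventually_all_finset]
    intro d _
    exact (Pool.Agent.W529.ST.card_atTop F).eventually_ge_atTop _
  have hT1 : ∀ d ∈ insert 1 T, d ≠ 0 := by
    intro d hd
    rcases Finset.mem_insert.1 hd with rfl | h
    · exact one_ne_zero
    · exact hT d h
  filter_upwards [Pool.Agent.W529.ST.count_levels T hT hT' (Z := ∅) Set.finite_empty (n + 1)
    (by omega), hev, Pool.Agent.W529.ST.card_pos F] with N hB hN hpos j hj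
  obtain ⟨t, hcard, hmean, hdis⟩ := exists_finset f N
  rw [hcard] at hN hpos
  have hn0 : (0 : ℝ) < t.card := by exact_mod_cast hpos
  have hclose : ∀ d ∈ insert 1 T, ∀ (c : HeightOneSpectrum (𝓞 F) → ℝ) (x : ℝ),
      |distr f d c N x - (∑ v ∈ t, if c v ≤ x then (1 : ℝ) else 0) / (t.card : ℝ)| ≤ δ := by
    intro d hd c x
    rw [hdis]
    have hb : t.card ≤ (t.filter (Good f d)).card + b d := by
      have e2 : (t.filter fun v => ¬ Good f d v).card ≤ b d := by
        have hfin := finite_bad f hf hn (hT1 d hd)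
        rw [← Set.ncard_coe_finset]
        refine Set.ncard_le_ncard (fun v hv => ?_) hfin
        exact (Finset.mem_filter.1 (Finset.mem_coe.1 hv)).2
      have e3 := Finset.card_filter_add_card_filter_not (s := t) (Good f d)
      omega
    refine (mean_close t (t.filter (Good f d)) (Finset.filter_subset _ _) _ (fun v => ?_)
      (fun v => ?_) (b d) hb hpos).trans ?_
    · split_ifs <;> norm_num
    · split_ifs <;> norm_num
    · have h2 := hN d hd
      rw [div_le_iff₀ hδ0] at h2
      rw [div_le_iff₀ hn0]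
      linarith
  have h1 := hB (a f 1 j) (fun d => a f d j) (fun d _ v _ h2d => by
    rw [a_twist f j h2d]
    rcases Pool.Agent.W529.ST.ch_dichotomy d h2d with ⟨_, h4⟩ | ⟨_, h4⟩
    · rw [h4, one_pow]
    · rw [h4, hj.neg_one_pow])
  refine le_trans ?_ h1
  rw [← Set.ncard_coe_finset]
  refine Set.ncard_le_ncard ?_ (Finset.finite_toSet _)
  rintro d ⟨hdT, x, hx⟩
  rw [Finset.mem_coe, Finset.mem_filter]
  refine ⟨hdT, x, ?_⟩
  have c1 := hclose d (Finset.mem_insert_of_mem hdT) (a f d j) x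
  have c2 := hclose 1 (Finset.mem_insert_self _ _) (a f 1 j) x
  have c3 := hclose 1 (Finset.mem_insert_self _ _) (fun v => - a f 1 j v) x
  rw [hmean, hmean]
  have e1 : (∑ v ∈ t, ((if a f 1 j v ≤ x then (1 : ℝ) else 0) +
      (if - a f 1 j v ≤ x then (1 : ℝ) else 0)) / 2) / (t.card : ℝ) =
      ((∑ v ∈ t, if a f 1 j v ≤ x then (1 : ℝ) else 0) / (t.card : ℝ) +
      (∑ v ∈ t, if - a f 1 j v ≤ x then (1 : ℝ) else 0) / (t.card : ℝ)) / 2 := by
    rw [← Finset.sum_div, Finset.sum_add_distrib]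
    ring
  rw [e1]
  have e2 : 1 / (((n + 1 : ℕ) : ℝ)) ≤ 1 / (n : ℝ) - 2 * δ := by
    rw [hδ]
    push_cast
    have h3 : 1 / (n : ℝ) - 1 / ((n : ℝ) + 1) = 1 / ((n : ℝ) * (n + 1)) := by
      field_simp
      ring
    have h4 : 2 * (1 / (2 * ((n : ℝ) + 1) ^ 2)) ≤ 1 / ((n : ℝ) * (n + 1)) := by
      rw [← mul_div_assoc, mul_one, div_le_div_iff₀ (by positivity) (by positivity)]
      nlinarith
    linarith
  refine e2.trans ?_
  have d1 := abs_le.1 c1
  have d2 := abs_le.1 c2
  have d3 := abs_le.1 c3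
  rcases le_abs.1 hx with h6 | h6
  · refine le_trans ?_ (le_abs_self _)
    linarith [d1.1, d1.2, d2.1, d2.2, d3.1, d3.2]
  · refine le_trans ?_ (neg_le_abs _)
    linarith [d1.1, d1.2, d2.1, d2.2, d3.1, d3.2]

end Pool.Agent.Results.MP_3da4c4_nt.TwistDistributions
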